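import Pool.Agent.Helper20.QG.H4

/-!
# The diagonal set against the polynomial-time hierarchy, for larger sets
-/

set_option autoImplicit false

namespace Pool.Agent.Helper29.PHW

open FirstOrder Pool.Agent.Helper20.Spectra Pool.Agent.Helper14.SS Pool.Agent.Helper12.SS
open Pool.Agent.Helper58.QD Pool.Agent.Helper20.QG

/-- block H of QuantifierGap for every bound `s` at least the fifth root -/
theorem diagS (s : ℕ → ℕ) (hs : ∀ n, sr n ≤ s n) : ∀ T : Set ℕ, IsSpectrum T → T.Infinite →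
    (∀ A : Set ℕ, IsSpectrum A → PolyHier A) → ∃ φ : SFm ArL 0 0, ¬ PolyHier (T ∩ arithS s φ) := by
  intro T hTs hTi hS
  obtain ⟨ET, cT, hET, hETT⟩ := hS T hTs
  obtain ⟨EU, cU, hEU, hEUU⟩ := hS _ univSizes_spectrum
  obtain ⟨e0, PT, hPT, hv0⟩ := trans t_num t_exCd t_add t_mul 2 (ST ET) (rud_ST hET)
  obtain ⟨e1, P1, hP1, hv1⟩ := trans t_num t_exCd t_add t_mul 3 SP rud_SP
  obtain ⟨e3, P3, hP3, hv3⟩ := trans t_num t_exCd t_add t_mul 3 (S3 EU) (rud_S3 hEU)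
  obtain ⟨e, he⟩ : ∃ e, e = e0 + e1 + e3 := ⟨_, rfl⟩
  have g0 : Ev PT e (ST ET) := Ev.mono hv0 (by omega)
  have g1 : Ev P1 e SP := Ev.mono hv1 (by omega)
  have g3 : Ev P3 e (S3 EU) := Ev.mono hv3 (by omega)
  obtain ⟨κ, hκ⟩ : ∃ κ, κ = 4 * cU + 4 := ⟨_, rfl⟩
  obtain ⟨K, hK⟩ : ∃ K, K = 5 * (2 * κ + 5) := ⟨_, rfl⟩
  obtain ⟨φ, hφ⟩ := NS_DpT hPT hP1 hP3 K κ
  refine ⟨φ, fun hD => ?_⟩
  obtain ⟨E', c', hE', hX⟩ := hD
  -- `E'` without zero is a spectrum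
  have hE0 : IsSpectrum {m | 1 ≤ m ∧ m ∈ E'} := by
    have h1 := hE'.preimage Polynomial.X
    have h2 : IsRudimentary {m | 1 ≤ m ∧ m ∈ E'} := by
      simpa using h1
    exact h2.isSpectrum (by rintro ⟨h3, _⟩; omega)
  obtain ⟨k, Θ, hΘ⟩ := spectrum_blocks hE0
  obtain ⟨t, rfl⟩ := exists_blk Θ
  have hk : ∀ m, 1 ≤ m → (m ∈ E' ↔ ux (m ^ (k + 1)) t ∈ univSizes) := by
    intro m hm
    have h1 := hΘ m hm
    rw [← mem_univSizes t] at h1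
    have h2 : (m ^ (k + 1) + 2 + t) ^ 2 + t = ux (m ^ (k + 1)) t := by unfold ux; ring
    rw [h2] at h1
    rw [← h1]
    exact ⟨fun h => ⟨hm, h⟩, fun h => h.2⟩
  obtain ⟨b1, hb1⟩ := num_u k t cU K κ hκ.ge
  obtain ⟨b2, hb2⟩ := num_p cT K
  obtain ⟨b3, hb3⟩ := num_p c' K
  obtain ⟨C, g, n, hC1, hg, hnT, hg1, hg2, hC2⟩ := ex_lev (K := K) (by omega) hTi
    (b1 + b2 + b3 + e + 3) ((k + t) ^ 2 + k)
  have hn1 : 1 ≤ n := by omega
  obtain ⟨B, hB⟩ : ∃ B, B = Nat.sqrt (n - 1) := ⟨_, rfl⟩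
  obtain ⟨x, hx⟩ : ∃ x, x = n - 1 - B * B := ⟨_, rfl⟩
  have hs1 : B * B ≤ n - 1 := by rw [hB]; exact Nat.sqrt_le (n - 1)
  have hs2 : n - 1 < (B + 1) * (B + 1) := by rw [hB]; exact Nat.lt_succ_sqrt (n - 1)
  have hs3 : (B + 1) * (B + 1) = B * B + 2 * B + 1 := by ring
  have hxn : B * B + x + 1 = n := by omega
  have hxB : x < 2 * B + 1 := by omega
  obtain ⟨q1, q2⟩ := num_s (κ := κ) (g := g) (by omega) (by rw [← hK]; exact hg1) hxn hxB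
  have nb : Nb n (s n) B x g κ e := ⟨hxn, hxB, by omega, q1.trans (hs n), q2, by omega⟩
  have hB2 := nb.g_two
  have hTE : ∀ y, 1 ≤ y → y < n → (y ∈ T ↔ (y + B ^ g) ^ 2 + y ∈ ET) := fun y hy1 hy2 =>
    hETT y hy1 _ (hb2 g (by omega) n B y hg2 hy2.le (by omega))
  have h5 := DpT_iff g0 g1 g3 nb hg1 hg2 hTE hC2 hC1 Fin.elim0 Fin.elim0
  have h6 := hX n hn1 (B ^ g) (hb3 g (by omega) n B n hg2 le_rfl (by omega))
  have h7 := hk ((n + B ^ g) ^ 2 + n) (by omega)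
  have h8 := hEUU (ux (((n + B ^ g) ^ 2 + n) ^ (k + 1)) t) (one_le_ux _ _) (B ^ (g ^ κ))
    (hb1 g (by omega) n B x hxn hxB (by omega) hg2)
  rw [← pow_two, ← h8, ← h7, ← h6] at h5
  have h9 : n ∈ T ∩ arithS s φ ↔ DpT PT P1 P3 K κ n (s n) Fin.elim0 Fin.elim0 := by
    rw [← hφ]
    exact ⟨fun h => h.2.2, fun h => ⟨hnT, hn1, h⟩⟩
  rw [h9] at h5
  tauto

/-- all sets of elements -/
theorem diagId (hS : ∀ A : Set ℕ, IsSpectrum A → PolyHier A) :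
    ∃ φ : SFm ArL 0 0, ¬ PolyHier (arithS id φ) := by
  have h1 : IsRudimentary {n | 1 ≤ n} := isRudimentary_of (RudX.le (Helper20.Spectra.IsPoly.const 1)
    (Helper20.Spectra.IsPoly.var 0))
  have h2 : IsSpectrum {n | 1 ≤ n} := h1.isSpectrum (by
    intro h
    have h' : (1 : ℕ) ≤ 0 := h
    omega)
  obtain ⟨φ, hφ⟩ := diagS id (fun n => Nat.findGreatest_le n) {n | 1 ≤ n} h2
    (Set.infinite_of_not_bddAbove (by
      rintro ⟨b, hb⟩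
      have h3 : b + 1 ≤ b := hb (show b + 1 ∈ {n | 1 ≤ n} from Nat.le_add_left 1 b)
      omega)) hS
  refine ⟨φ, fun h => hφ ?_⟩
  have e : {n : ℕ | 1 ≤ n} ∩ arithS id φ = arithS id φ := by
    ext n
    exact ⟨fun h => h.2, fun h => ⟨h.1, h⟩⟩
  rwa [e]

end Pool.Agent.Helper29.PHW
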