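import Pool.Agent.Helper38.DG.AdvTools
import Pool.Agent.Helper14.QG.H0

/-!
# The polynomial-time hierarchy: closure properties
-/

set_option autoImplicit false

namespace Pool.Agent.Helper29.PHW

open Pool.Agent.Helper20.Spectra Pool.Agent.Helper58.QD
open Pool.Agent.Helper38.DG.AdvT (exists_pair eval_le eval_pos nA)

lemma logPoly (q : Polynomial ℕ) (c : ℕ) : ∃ c', ∀ n, 2 ≤ n → ∀ x, x ≤ q.eval n →
    (Nat.log 2 x + 1) ^ c ≤ (Nat.log 2 n + 1) ^ c' := by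
  obtain ⟨D, hD⟩ : ∃ D, D = q.eval 1 + q.natDegree + 1 := ⟨_, rfl⟩
  refine ⟨c + D * c, fun n hn x hx => ?_⟩
  obtain ⟨L, hL⟩ : ∃ L, L = Nat.log 2 n + 1 := ⟨_, rfl⟩
  have hL2 : 2 ≤ L := by
    have : 1 ≤ Nat.log 2 n := Nat.log_pos (by norm_num) hn
    omega
  have hnL : n < 2 ^ L := by
    rw [hL]
    exact Nat.lt_pow_succ_log_self (by norm_num) n
  have h1 : Nat.log 2 x + 1 ≤ L * D := by
    rcases Nat.eq_zero_or_pos x with h0 | h0
    · subst h0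
      rw [Nat.log_zero_right, zero_add]
      exact Nat.mul_pos (by omega) (by omega)
    · have h2 : x < 2 ^ (L * D) := by
        have h3 : q.eval 1 < 2 ^ (q.eval 1 + 1) :=
          Nat.lt_two_pow_self.trans (Nat.pow_lt_pow_right (by norm_num) (Nat.lt_succ_self _))
        have h4 : n ^ q.natDegree ≤ (2 ^ L) ^ q.natDegree := Nat.pow_le_pow_left hnL.le _
        have h5 : 0 < n ^ q.natDegree := Nat.pow_pos (by omega)
        calc x ≤ q.eval n := hx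
          _ ≤ q.eval 1 * n ^ q.natDegree := eval_le q (by omega)
          _ < 2 ^ (q.eval 1 + 1) * n ^ q.natDegree := Nat.mul_lt_mul_of_pos_right h3 h5
          _ ≤ 2 ^ (q.eval 1 + 1) * (2 ^ L) ^ q.natDegree := Nat.mul_le_mul_left _ h4
          _ = 2 ^ (q.eval 1 + 1 + L * q.natDegree) := by rw [← pow_mul, ← pow_add]
          _ ≤ 2 ^ (L * D) := by
              apply Nat.pow_le_pow_right (by norm_num)
              have h6 : 1 * (q.eval 1 + 1) ≤ L * (q.eval 1 + 1) :=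
                Nat.mul_le_mul_right _ (by omega)
              have h7 : L * D = L * (q.eval 1 + 1) + L * q.natDegree := by rw [hD]; ring
              omega
      have := Nat.log_lt_of_lt_pow (b := 2) h0.ne' h2
      omega
  calc (Nat.log 2 x + 1) ^ c ≤ (L * D) ^ c := Nat.pow_le_pow_left h1 c
    _ = L ^ c * D ^ c := Nat.mul_pow _ _ _
    _ ≤ L ^ c * (2 ^ D) ^ c := Nat.mul_le_mul_left _ (Nat.pow_le_pow_left Nat.lt_two_pow_self.le c)
    _ ≤ L ^ c * (L ^ D) ^ c := Nat.mul_le_mul_left _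
        (Nat.pow_le_pow_left (Nat.pow_le_pow_left hL2 D) c)
    _ = L ^ (c + D * c) := by rw [← pow_mul, ← pow_add]
    _ = (Nat.log 2 n + 1) ^ (c + D * c) := by rw [← hL]

/-- It is enough to decide large numbers. -/
theorem phOf {B : Set ℕ} (n₀ : ℕ) {E : Set ℕ} (c : ℕ) (hE : IsRudimentary E)
    (h : ∀ n, 1 ≤ n → n₀ ≤ n → ∀ p, 2 ^ ((Nat.log 2 n + 1) ^ c) ≤ p →
      (n ∈ B ↔ (n + p) ^ 2 + n ∈ E)) : PolyHier B := by
  classical
  obtain ⟨E', hE', h'⟩ := exists_pair (P := fun n a => (n₀ ≤ n ∧ (n + a) ^ 2 + n ∈ E) ∨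
      ∃ m ∈ (Finset.range n₀).filter (fun m => m ∈ B), n = m)
    (RudX.or (RudX.and' (RudX.le (Helper20.Spectra.IsPoly.const _)
        (Helper20.Spectra.IsPoly.var 0))
      (RudX.mem hE ((((Helper20.Spectra.IsPoly.var 0).add (Helper20.Spectra.IsPoly.var 1)).pow
        2).add (Helper20.Spectra.IsPoly.var 0))))
      (RudX.ex_finset _ (fun m _ => RudX.eq (Helper20.Spectra.IsPoly.var 0)
        (Helper20.Spectra.IsPoly.const m))))
  refine ⟨E', c, hE', fun n hn p hp => ?_⟩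
  rw [h']
  simp only [Finset.mem_filter, Finset.mem_range]
  by_cases h1 : n₀ ≤ n
  · rw [h n hn h1 p hp]
    constructor
    · exact fun h2 => Or.inl ⟨h1, h2⟩
    · rintro (h2 | ⟨m, ⟨h2, -⟩, h3⟩)
      · exact h2.2
      · omega
  · constructor
    · exact fun h2 => Or.inr ⟨n, ⟨by omega, h2⟩, rfl⟩
    · rintro (h2 | ⟨m, ⟨-, h2⟩, h3⟩)
      · exact absurd h2.1 h1
      · rw [h3]
        exact h2

theorem phFin {A B : Set ℕ} (hA : PolyHier A) (n₀ : ℕ) (h : ∀ n, n₀ ≤ n → (n ∈ A ↔ n ∈ B)) :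
    PolyHier B := by
  obtain ⟨E, c, hE, hA⟩ := hA
  exact phOf n₀ c hE (fun n hn hn' p hp => (h n hn').symm.trans (hA n hn p hp))

theorem phPre (A : Set ℕ) (q : Polynomial ℕ) (hA : PolyHier A) :
    PolyHier {n | q.eval n ∈ A} := by
  by_cases hq : q = 0
  · refine Pool.Agent.Helper14.QG.rudPH _ (isRudimentary_of ?_)
    refine (RudX.const (0 ∈ A)).congr (fun X v => ?_)
    simp [hq]
  obtain ⟨E, c, hE, hA⟩ := hA
  obtain ⟨c', hc'⟩ := logPoly q c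
  obtain ⟨E', hE', h'⟩ := exists_pair (P := fun n a => (q.eval n + a) ^ 2 + q.eval n ∈ E)
    (RudX.mem hE ((((Helper20.Spectra.IsPoly.polyEval q (Helper20.Spectra.IsPoly.var 0)).add
        (Helper20.Spectra.IsPoly.var 1)).pow 2).add
          (Helper20.Spectra.IsPoly.polyEval q (Helper20.Spectra.IsPoly.var 0))))
  refine phOf 2 c' hE' (fun n hn hn2 p hp => ?_)
  rw [h']
  exact hA _ (eval_pos hq hn) p ((Nat.pow_le_pow_right (by norm_num) (hc' n hn2 _ le_rfl)).trans hp)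

/-- Reading off the runs `{F N, ..., F N + N - 1}`. -/
theorem phRed {S₁ S₂ : Set ℕ} (h₁ : PolyHier S₁) (h₂ : PolyHier S₂) (F : ℕ → ℕ)
    (G T : ℕ → Prop) (q : Polynomial ℕ) (hgap : ∀ N, F N + N < F (N + 1))
    (hq : ∀ N, F N ≤ q.eval N)
    (e₁ : ∀ n, n ∈ S₁ ↔ ∃ N m, G N ∧ m < N ∧ n = F N + m)
    (e₂ : ∀ n, n ∈ S₂ ↔ ∃ N m, G N ∧ T N ∧ m < N ∧ n = F N + m) :
    PolyHier {N | 1 ≤ N ∧ G N ∧ T N} := by
  have hF1 : ∀ N, F N ≤ F (N + 1) := fun N => by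
    have := hgap N
    omega
  have hmono : Monotone F := monotone_nat_of_le_succ hF1
  have hlt : ∀ N N', N < N' → F N + N < F N' := by
    intro N N' h
    exact lt_of_lt_of_le (hgap N) (hmono h)
  have hend : ∀ N, F N + N ∉ S₁ := by
    intro N h
    obtain ⟨N', i, _, hi, he⟩ := (e₁ _).1 h
    rcases lt_trichotomy N' N with h1 | h1 | h1
    · have := hlt N' N h1
      omega
    · subst h1
      omega
    · have := hlt N N' h1
      omega
  have hbef : ∀ N m', m' + 1 = F N → m' ∉ S₁ := by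
    intro N m' hm' h
    obtain ⟨N', i, _, hi, he⟩ := (e₁ _).1 h
    rcases lt_or_ge N' N with h1 | h1
    · have := hlt N' N h1
      omega
    · have := hmono h1
      omega
  have hpos : ∀ N, 1 ≤ N → 1 ≤ F N := by
    intro N hN
    have := hlt 0 N hN
    omega
  obtain ⟨E₁, c₁, hE₁, hW₁⟩ := h₁
  obtain ⟨E₂, c₂, hE₂, hW₂⟩ := h₂
  obtain ⟨d₁, hd₁⟩ := logPoly (q + Polynomial.X) c₁
  obtain ⟨d₂, hd₂⟩ := logPoly (q + Polynomial.X) c₂
  have hP : RudX nA 2 (fun _ z => ∃ m, m ≤ q.eval (z 0) ∧ (1 ≤ m ∧ (m + z 1) ^ 2 + m ∈ E₂ ∧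
      (∀ m', m' ≤ m → (1 ≤ m' → m' + 1 = m → (m' + z 1) ^ 2 + m' ∉ E₁)) ∧
      (∀ i, i ≤ z 0 → (i < z 0 → (m + i + z 1) ^ 2 + (m + i) ∈ E₁)) ∧
      (m + z 0 + z 1) ^ 2 + (m + z 0) ∉ E₁)) := by
    have m0 : Helper20.Spectra.IsPoly (2 + 1) (fun w => w 0) := Helper20.Spectra.IsPoly.var 0
    have n0 : Helper20.Spectra.IsPoly (2 + 1) (fun w => Fin.tail w 0) :=
      Helper20.Spectra.IsPoly.var 1
    have a0 : Helper20.Spectra.IsPoly (2 + 1) (fun w => Fin.tail w 1) :=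
      Helper20.Spectra.IsPoly.var 2
    refine RudX.ex (IsPoly.polyEval q (Helper20.Spectra.IsPoly.var 0)) (P := fun _ z m =>
      (1 ≤ m ∧ (m + z 1) ^ 2 + m ∈ E₂ ∧
      (∀ m', m' ≤ m → (1 ≤ m' → m' + 1 = m → (m' + z 1) ^ 2 + m' ∉ E₁)) ∧
      (∀ i, i ≤ z 0 → (i < z 0 → (m + i + z 1) ^ 2 + (m + i) ∈ E₁)) ∧
      (m + z 0 + z 1) ^ 2 + (m + z 0) ∉ E₁)) ?_
    refine (RudX.le (Helper20.Spectra.IsPoly.const 1) m0).and' ((RudX.mem hE₂
      (((m0.add a0).pow 2).add m0)).and' (RudX.and' ?_ (RudX.and' ?_ ?_)))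
    · refine RudX.all m0 (P := fun _ w m' => 1 ≤ m' → m' + 1 = w 0 →
        (m' + Fin.tail w 1) ^ 2 + m' ∉ E₁) ?_
      have v0 : Helper20.Spectra.IsPoly (2 + 1 + 1) (fun w => w 0) :=
        Helper20.Spectra.IsPoly.var 0
      exact (RudX.le (Helper20.Spectra.IsPoly.const 1) v0).imp
        ((RudX.eq (v0.add (Helper20.Spectra.IsPoly.const 1)) m0.tail).imp
          (RudX.mem hE₁ (((v0.add a0.tail).pow 2).add v0)).not')
    · refine RudX.all n0 (P := fun _ w i => i < Fin.tail w 0 →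
        (w 0 + i + Fin.tail w 1) ^ 2 + (w 0 + i) ∈ E₁) ?_
      have v0 : Helper20.Spectra.IsPoly (2 + 1 + 1) (fun w => w 0) :=
        Helper20.Spectra.IsPoly.var 0
      exact (RudX.lt v0 n0.tail).imp (RudX.mem hE₁ ((((m0.tail.add v0).add a0.tail).pow 2).add
        (m0.tail.add v0)))
    · exact (RudX.mem hE₁ ((((m0.add n0).add a0).pow 2).add (m0.add n0))).not'
  obtain ⟨E', hE', h'⟩ := exists_pair (P := fun n a => ∃ m, m ≤ q.eval n ∧
      (1 ≤ m ∧ (m + a) ^ 2 + m ∈ E₂ ∧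
      (∀ m', m' ≤ m → (1 ≤ m' → m' + 1 = m → (m' + a) ^ 2 + m' ∉ E₁)) ∧
      (∀ i, i ≤ n → (i < n → (m + i + a) ^ 2 + (m + i) ∈ E₁)) ∧
      (m + n + a) ^ 2 + (m + n) ∉ E₁)) hP
  refine phOf 2 (d₁ + d₂) hE' (fun n hn hn2 p hp => ?_)
  rw [h']
  have hev : (q + Polynomial.X).eval n = q.eval n + n := by simp
  have hL : 1 ≤ Nat.log 2 n + 1 := by omega
  have k1 : ∀ x, 1 ≤ x → x ≤ q.eval n + n → (x ∈ S₁ ↔ (x + p) ^ 2 + x ∈ E₁) := fun x hx hx' =>
    hW₁ x hx p ((Nat.pow_le_pow_right (by norm_num) ((hd₁ n hn2 x (by rw [hev]; exact hx')).trans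
      (Nat.pow_le_pow_right hL (by omega)))).trans hp)
  have k2 : ∀ x, 1 ≤ x → x ≤ q.eval n + n → (x ∈ S₂ ↔ (x + p) ^ 2 + x ∈ E₂) := fun x hx hx' =>
    hW₂ x hx p ((Nat.pow_le_pow_right (by norm_num) ((hd₂ n hn2 x (by rw [hev]; exact hx')).trans
      (Nat.pow_le_pow_right hL (by omega)))).trans hp)
  constructor
  · rintro ⟨-, hG, hT⟩
    have h1 := hpos n hn
    have h2 := hq n
    refine ⟨F n, h2, h1, ?_, ?_, ?_, ?_⟩
    · exact (k2 (F n) h1 (by omega)).1 ((e₂ _).2 ⟨n, 0, hG, hT, hn, rfl⟩)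
    · intro m' hm' hm1 hm2 hm3
      exact hbef n m' hm2 ((k1 m' hm1 (by omega)).2 hm3)
    · intro i _ hi
      exact (k1 (F n + i) (by omega) (by omega)).1 ((e₁ _).2 ⟨n, i, hG, hi, rfl⟩)
    · intro h3
      exact hend n ((k1 (F n + n) (by omega) (by omega)).2 h3)
  · rintro ⟨m, hm, hm1, hm3, hm4, hm5, hm6⟩
    have hmS : m ∈ S₂ := (k2 m hm1 (by omega)).2 hm3
    have hm4' : ∀ m', 1 ≤ m' → m' + 1 = m → m' ∉ S₁ := by
      intro m' h3 h4 h5
      exact hm4 m' (by omega) h3 h4 ((k1 m' h3 (by omega)).1 h5)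
    have hm5' : ∀ i, i < n → m + i ∈ S₁ := by
      intro i hi
      exact (k1 (m + i) (by omega) (by omega)).2 (hm5 i hi.le hi)
    have hm6' : m + n ∉ S₁ := by
      intro h3
      exact hm6 ((k1 (m + n) (by omega) (by omega)).1 h3)
    obtain ⟨N', i, hG, hT, hi, he⟩ := (e₂ _).1 hmS
    have hi0 : i = 0 := by
      by_contra h0
      have h3 := hpos N' (by omega)
      exact hm4' (m - 1) (by omega) (by omega) ((e₁ _).2 ⟨N', i - 1, hG, by omega, by omega⟩)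
    subst hi0
    rcases lt_trichotomy N' n with h3 | h3 | h3
    · exfalso
      have h4 := hm5' N' h3
      rw [he, add_zero] at h4
      exact hend N' h4
    · subst h3
      exact ⟨hn, hG, hT⟩
    · exfalso
      exact hm6' ((e₁ _).2 ⟨N', n, hG, h3, by omega⟩)

end Pool.Agent.Helper29.PHW
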