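import Pool.Agent.Helper20.MW.WildAdv
import Pool.Agent.Helper29.PHW.Diag
import Pool.Agent.Helper29.PHW.Tools

/-!
# Above an iterated logarithm: against the polynomial-time hierarchy
-/

set_option autoImplicit false

namespace Pool.Agent.Helper29.PHW

open FirstOrder FirstOrder.Language Pool.Agent.Helper20.Spectra Pool.Agent.Helper29.Prefix
  Pool.Agent.Helper20.OP Pool.Agent.Helper29.TD Pool.Agent.Helper29.CW Filter
open Pool.Agent.Helper14.SS Pool.Agent.Helper12.SS Pool.Agent.Helper20.MW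
open Pool.Agent.Helper29.MW Pool.Agent.Helper58.QD

/-- If the first-order sentences of small width have spectra in PH, all spectra are in PH. -/
theorem ph_of_width (μ : Width) (w : ℕ → ℕ) (hw : ∃ d, ∀ᶠ n in atTop, n ≤ E d (w n))
    (hcon : ∀ A : Set ℕ, WidthSpectrum μ w A → PolyHier A) :
    ∀ A : Set ℕ, IsSpectrum A → PolyHier A := by
  obtain ⟨d0, c0, h2, hthr⟩ := thr_pred hw
  obtain ⟨N1, hN1⟩ := le_clog_iter (d0 + 2) c0
  have hFO : ∀ {Γ : Type} [Finite Γ] (W : Wang Γ),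
      WidthSpectrum μ w (Sizes (d0 + 2) c0 W) := by
    intro Γ _ W
    obtain ⟨S, hS, ar, φ, har, h3, h4⟩ := short2_sizes (w := fun n => w n - 1) h2 hthr W
    exact ⟨S, hS, ar, φ, fun _ => har,
      fun n I hn hI => widthLe_of_pathLe har hn μ (h3 n I hn hI), h4⟩
  have hbnd : ∀ N, Fs (d0 + 2) N ≤
      (Polynomial.X + (1 + 2 * (Polynomial.X + 1) ^ (d0 + 2)) * Polynomial.X ^ 2 :
        Polynomial ℕ).eval N := by
    intro N
    have := Fs_le (d0 + 2) N
    simpa using this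
  intro A hA
  obtain ⟨Θ₀, hΘ₀⟩ := exists_universal_two
  obtain ⟨g, hg2, hg⟩ := hΘ₀ A hA
  have hred := phRed (hcon _ (hFO triv)) (hcon _ (hFO (blockWang Θ₀))) (Fs (d0 + 2))
    (fun N => c0 ≤ (Nat.clog 2)^[d0 + 2] N) (fun N => Tiles (blockWang Θ₀) N) _
    (Fs_gap (d0 + 2)) hbnd
    (fun n => by
      constructor
      · rintro ⟨N, m, h3, -, h5, h6⟩
        exact ⟨N, m, h3, h5, h6⟩
      · rintro ⟨N, m, h3, h5, h6⟩
        exact ⟨N, m, h3, tiles_triv N, h5, h6⟩)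
    (fun n => Iff.rfl)
  have hsq : PolyHier (squareSizes Θ₀) := by
    refine phFin hred (N1 + 1) (fun n hn => ?_)
    rw [mem_squareSizes_iff Θ₀ (by omega)]
    constructor
    · rintro ⟨-, -, h⟩
      exact h
    · intro h
      exact ⟨by omega, hN1 n (by omega), h⟩
  rw [hg]
  have h5 := phPre _ g hsq
  exact phFin h5 1 (fun n hn => ⟨fun h => ⟨hn, h⟩, fun h => h.2⟩)

lemma width_isSpectrum {μ : Width} {w : ℕ → ℕ} {A : Set ℕ} (h : WidthSpectrum μ w A) :
    IsSpectrum A := by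
  obtain ⟨S, hS, ar, φ, -, -, h2⟩ := h
  have h3 : ShortSpectrum (fun n => n) A := by
    refine ⟨S, hS, ar, φ, fun n I _ _ l p hp => ?_, h2⟩
    simpa using Fintype.card_le_of_injective p hp.1
  exact h3.isSpectrum

/-- The first-order sentences of small width have all their spectra in PH iff all sentences do. -/
theorem width_ph_iff (μ : Width) (w : ℕ → ℕ) (hw : ∃ d, ∀ᶠ n in atTop, n ≤ E d (w n)) :
    (∀ A : Set ℕ, WidthSpectrum μ w A → PolyHier A) ↔ ∀ A : Set ℕ, IsSpectrum A → PolyHier A :=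
  ⟨ph_of_width μ w hw, fun h A hA => h A (width_isSpectrum hA)⟩

/-- **The wild case, against PH.** -/
theorem mwidth_wildPH (μ : Width) (w : ℕ → ℕ) (hw : ∃ d, ∀ᶠ n in atTop, n ≤ E d (w n)) :
    ∃ A : Set ℕ, MWidthSpectrum μ w A ∧ ¬ PolyHier A := by
  by_contra hcon
  push Not at hcon
  obtain ⟨d0, c0, h2, hthr⟩ := thr_pred hw
  obtain ⟨N1, hN1⟩ := le_clog_iter (d0 + 2) c0
  have hbnd : ∀ N, Fs (d0 + 2) N ≤
      (Polynomial.X + (1 + 2 * (Polynomial.X + 1) ^ (d0 + 2)) * Polynomial.X ^ 2 :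
        Polynomial ℕ).eval N := by
    intro N
    have := Fs_le (d0 + 2) N
    simpa using this
  have hQ : ∀ A : Set ℕ, IsSpectrum A → PolyHier A :=
    ph_of_width μ w hw (fun A hA => hcon A (mwidth_fo hA))
  obtain ⟨φ, hφ⟩ := diagId hQ
  apply hφ
  have hred := phRed (hcon _ (mwidth_sizes (μ := μ) h2 hthr (.fo ⊤)))
    (hcon _ (mwidth_sizes (μ := μ) h2 hthr φ)) (Fs (d0 + 2))
    (fun N => c0 ≤ (Nat.clog 2)^[d0 + 2] N) (fun N => ArTrue φ N) _ (Fs_gap (d0 + 2)) hbnd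
    (fun n => by
      constructor
      · rintro ⟨N, m, h3, -, h5, h6⟩
        exact ⟨N, m, h3, h5, h6⟩
      · rintro ⟨N, m, h3, h5, h6⟩
        exact ⟨N, m, h3, arTrue_top N, h5, h6⟩)
    (fun n => Iff.rfl)
  refine phFin hred (N1 + 1) (fun n hn => ?_)
  have e : n ∈ arithS id φ ↔ 1 ≤ n ∧ ArTrue φ n := and_congr Iff.rfl (arTrue_iff φ n)
  rw [e]
  constructor
  · rintro ⟨h3, -, h4⟩
    exact ⟨h3, h4⟩
  · rintro ⟨h3, h4⟩
    exact ⟨h3, hN1 n (by omega), h4⟩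

end Pool.Agent.Helper29.PHW
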