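import Pool.Agent.Helper20.EX2.WildM
import Pool.Agent.Helper29.PHW.Diag
import Pool.Agent.Helper29.PHW.Tools

/-!
# Monadic second-order spectra of classes of graphs: the wild case against PH
-/

set_option autoImplicit false

namespace Pool.Agent.Helper29.PHW

open FirstOrder FirstOrder.Language Pool.Agent.Helper20.Spectra Pool.Agent.Helper20.OP
open Pool.Agent.Helper20.FS
open Pool.Agent.Helper20.EX (SpectrumOver Monotone)
open Pool.Agent.Helper20.EX2
open Pool.Agent.Helper29.EX
open Pool.Agent.Helper32.MX (MSpectrumOver)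
open Pool.Agent.Helper14.SS Pool.Agent.Helper12.SS Pool.Agent.Helper58.QD

variable {K : ∀ n : ℕ, Str 1 (Fin n) → Prop} {ψ : (binLang 1).Sentence}

/-- The spectra over `K` are in PH if and only if all spectra are. -/
theorem over_ph_iff (hK : DefBy K ψ) (hM : Monotone K) (hS : HasAll claws K) :
    (∀ A : Set ℕ, SpectrumOver K A → PolyHier A) ↔ ∀ A : Set ℕ, IsSpectrum A → PolyHier A := by
  refine ⟨fun h A hA => ?_, fun h A hA => h A (over_isSpectrum hK hA)⟩
  obtain ⟨⟨U, hU, hall⟩, -⟩ := mono_universal hK hM hS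
  obtain ⟨g, rfl⟩ := (hall A).1 hA
  exact phFin (phPre U g (h U hU)) 1 (fun n hn => ⟨fun h => ⟨hn, h⟩, fun h => h.2⟩)

/-- **The wild case.** Some monadic second-order spectrum over `K` is not in PH. -/
theorem mso_wildPH (hK : DefBy K ψ) (hM : Monotone K) (hS : HasAll claws K) :
    ∃ A : Set ℕ, MSpectrumOver K A ∧ ¬ PolyHier A := by
  by_contra hcon
  push Not at hcon
  obtain ⟨φ, hφ⟩ := diagId ((over_ph_iff hK hM hS).1 fun A hA => hcon A (mspec_fo hA))
  obtain ⟨m, hm, hcode⟩ := mspec_code hK hM hS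
  obtain ⟨A, hA, hA'⟩ := hcode φ
  apply hφ
  refine phFin (phPre A (Polynomial.C m * Polynomial.X ^ 2) (hcon A hA)) 1 (fun n hn => ?_)
  have h1 := hA' n hn
  have h2 : (Polynomial.C m * Polynomial.X ^ 2 : Polynomial ℕ).eval n = m * n ^ 2 := by
    simp only [Polynomial.eval_mul, Polynomial.eval_C, Polynomial.eval_pow, Polynomial.eval_X]
  rw [Set.mem_setOf_eq, h2, h1]
  exact ⟨fun h => ⟨hn, h⟩, fun h => h.2⟩

end Pool.Agent.Helper29.PHW
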